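import Pool.Agent.Helper97.PC.Defs

/-!
# MP_b1e538, row CUT: cutting off a zero mode
-/

open MeasureTheory

namespace Helper2.PC

open Helper97.PC

noncomputable section

/-- A smooth bump function, `1` on the unit ball and `0` outside the ball of radius `2`. -/
def bump : ContDiffBump (0 : R3) := ⟨1, 2, one_pos, one_lt_two⟩

/-- The bump function at scale `R`. -/
def cut (R : ℝ) (x : R3) : ℝ := bump (R⁻¹ • x)

theorem bump_cd : ContDiff ℝ (⊤ : ℕ∞) (fun x : R3 => bump x) := bump.contDiff

theorem cut_cd (R : ℝ) : ContDiff ℝ (⊤ : ℕ∞) (cut R) := by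
  have h : ContDiff ℝ (⊤ : ℕ∞) (fun x : R3 => R⁻¹ • x) := contDiff_id.const_smul R⁻¹
  exact bump_cd.comp h

theorem cut_cont (R : ℝ) : Continuous (cut R) := (cut_cd R).continuous

theorem cut_nonneg (R : ℝ) (x : R3) : 0 ≤ cut R x := bump.nonneg

theorem cut_le_one (R : ℝ) (x : R3) : cut R x ≤ 1 := bump.le_one

theorem cut_one {R : ℝ} (hR : 0 < R) {x : R3} (hx : ‖x‖ ≤ R) : cut R x = 1 := by
  apply bump.one_of_mem_closedBall
  rw [mem_closedBall_zero_iff, norm_smul, norm_inv, Real.norm_of_nonneg hR.le]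
  show R⁻¹ * ‖x‖ ≤ 1
  rw [inv_mul_le_iff₀ hR]
  simpa using hx

theorem cut_zero {R : ℝ} (hR : 0 < R) {x : R3} (hx : 2 * R ≤ ‖x‖) : cut R x = 0 := by
  apply bump.zero_of_le_dist
  rw [dist_zero_right, norm_smul, norm_inv, Real.norm_of_nonneg hR.le]
  show 2 ≤ R⁻¹ * ‖x‖
  rw [le_inv_mul_iff₀ hR]
  linarith

theorem cut_diff (R : ℝ) : Differentiable ℝ (cut R) := (cut_cd R).differentiable (by simp)

theorem cut_pd_zero {R : ℝ} (hR : 0 < R) (j : Fin 3) {x : R3} (hx : ‖x‖ ≤ R) :
    pd j (cut R) x = 0 := by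
  have h : IsLocalMax (cut R) x := by
    apply Filter.Eventually.of_forall
    intro y
    rw [cut_one hR hx]
    exact cut_le_one R y
  unfold pd
  rw [h.fderiv_eq_zero]
  rfl

theorem cut_pd_bound : ∃ C : ℝ, 0 ≤ C ∧ ∀ R : ℝ, 0 < R → ∀ (j : Fin 3) (x : R3),
    |pd j (cut R) x| ≤ C / R := by
  have hc : Continuous (fderiv ℝ (fun x : R3 => bump x)) :=
    bump_cd.continuous_fderiv (by simp)
  have hs : HasCompactSupport (fderiv ℝ (fun x : R3 => bump x)) :=
    bump.hasCompactSupport.fderiv (𝕜 := ℝ)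
  obtain ⟨C, hC⟩ := hs.exists_bound_of_continuous hc
  refine ⟨C, le_trans (norm_nonneg _) (hC 0), ?_⟩
  intro R hR j x
  have hd : HasFDerivAt (fun x : R3 => bump x) (fderiv ℝ (fun x : R3 => bump x) (R⁻¹ • x))
      (R⁻¹ • x) := ((bump_cd.differentiable (by simp)) (R⁻¹ • x)).hasFDerivAt
  have hl : HasFDerivAt (fun x : R3 => R⁻¹ • x) (R⁻¹ • ContinuousLinearMap.id ℝ R3) x :=
    (hasFDerivAt_id x).const_smul R⁻¹
  have h := (hd.comp x hl).fderiv
  have e : pd j (cut R) x =
      R⁻¹ * fderiv ℝ (fun x : R3 => bump x) (R⁻¹ • x) (EuclideanSpace.single j 1) := by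
    unfold pd
    have e1 : fderiv ℝ (cut R) x = (fderiv ℝ (fun x : R3 => bump x) (R⁻¹ • x)).comp
        (R⁻¹ • ContinuousLinearMap.id ℝ R3) := h
    rw [e1]
    simp
  rw [e, abs_mul, abs_inv, abs_of_pos hR, div_eq_inv_mul]
  apply mul_le_mul_of_nonneg_left _ (inv_nonneg.mpr hR.le)
  rw [← Real.norm_eq_abs]
  calc ‖fderiv ℝ (fun x : R3 => bump x) (R⁻¹ • x) (EuclideanSpace.single j 1)‖
      ≤ ‖fderiv ℝ (fun x : R3 => bump x) (R⁻¹ • x)‖ * ‖(EuclideanSpace.single j 1 : R3)‖ :=
        ContinuousLinearMap.le_opNorm _ _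
    _ = ‖fderiv ℝ (fun x : R3 => bump x) (R⁻¹ • x)‖ := by simp
    _ ≤ C := hC _

theorem pd_cont (R : ℝ) (j : Fin 3) : Continuous (pd j (cut R)) := by
  have hc : Continuous (fderiv ℝ (cut R)) := (cut_cd R).continuous_fderiv (by simp)
  exact hc.clm_apply continuous_const

theorem test_mul {φ : R3 → ℝ} (hφ : Test φ) (R : ℝ) : Test (fun x => φ x * cut R x) :=
  ⟨hφ.1.mul (cut_cd R), hφ.2.mul_right⟩

theorem pd_mul {φ : R3 → ℝ} (hφ : Test φ) (R : ℝ) (j : Fin 3) (x : R3) :
    pd j (fun x => φ x * cut R x) x = pd j φ x * cut R x + φ x * pd j (cut R) x := by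
  unfold pd
  have h1 : DifferentiableAt ℝ φ x := (hφ.1.differentiable (by simp)) x
  have h2 : DifferentiableAt ℝ (cut R) x := cut_diff R x
  have h := fderiv_mul (𝕜 := ℝ) h1 h2
  have e : (fun x => φ x * cut R x) = φ * cut R := rfl
  rw [e, h]
  simp only [ContinuousLinearMap.add_apply, ContinuousLinearMap.smul_apply, smul_eq_mul]
  ring

theorem test_pd_cont {φ : R3 → ℝ} (hφ : Test φ) (j : Fin 3) : Continuous (pd j φ) := by
  have hc : Continuous (fderiv ℝ φ) := hφ.1.continuous_fderiv (by simp)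
  exact hc.clm_apply continuous_const

theorem test_pd_comp {φ : R3 → ℝ} (hφ : Test φ) (j : Fin 3) : HasCompactSupport (pd j φ) := by
  have h := hφ.2.fderiv_apply (𝕜 := ℝ) (EuclideanSpace.single j (1 : ℝ))
  exact h

/-- A continuous function with compact support times an `L^2` function is integrable. -/
theorem int_mul {g : R3 → ℝ} (hg : Continuous g) (hs : HasCompactSupport g) {f : R3 → Sp}
    (hf : MemLp f 2 volume) : Integrable (fun x => g x • f x) := by
  have h1 : MemLp g 2 volume := hg.memLp_of_hasCompactSupport hs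
  exact memLp_one_iff_integrable.mp (MemLp.smul (p := 2) (q := 2) (r := 1) hf h1)

theorem weakD_cut {ψ D : R3 → Sp} {j : Fin 3} (hψ : MemLp ψ 2 volume) (hD : MemLp D 2 volume)
    (h : WeakD j ψ D) (R : ℝ) :
    WeakD j (fun x => cut R x • ψ x) (fun x => cut R x • D x + pd j (cut R) x • ψ x) := by
  intro φ hφ
  have h1 := h _ (test_mul hφ R)
  have i1 : Integrable (fun x => pd j φ x • (cut R x • ψ x)) := by
    have := int_mul ((test_pd_cont hφ j).mul (cut_cont R)) (test_pd_comp hφ j).mul_right hψ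
    refine this.congr (Filter.Eventually.of_forall fun x => ?_)
    simp only [smul_smul, Pi.mul_apply]
  have i2 : Integrable (fun x => (φ x * pd j (cut R) x) • ψ x) :=
    int_mul (hφ.1.continuous.mul (pd_cont R j)) hφ.2.mul_right hψ
  have i3 : Integrable (fun x => (φ x * cut R x) • D x) :=
    int_mul (hφ.1.continuous.mul (cut_cont R)) hφ.2.mul_right hD
  have e1 : ∫ x, pd j (fun x => φ x * cut R x) x • ψ x =
      (∫ x, pd j φ x • (cut R x • ψ x)) + ∫ x, (φ x * pd j (cut R) x) • ψ x := by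
    rw [← integral_add i1 i2]
    apply integral_congr_ae
    refine Filter.Eventually.of_forall fun x => ?_
    simp only [pd_mul hφ, add_smul, smul_smul]
  have e2 : ∫ x, φ x • (cut R x • D x + pd j (cut R) x • ψ x) =
      (∫ x, (φ x * cut R x) • D x) + ∫ x, (φ x * pd j (cut R) x) • ψ x := by
    rw [← integral_add i3 i2]
    apply integral_congr_ae
    refine Filter.Eventually.of_forall fun x => ?_
    simp only [smul_add, smul_smul]
  rw [e2, neg_add, ← h1, e1]
  abel

/-- `σ·(p-A)` of the cut-off function. -/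
theorem pi_cut (ψ : R3 → Sp) (D : Fin 3 → R3 → Sp) (A : Fin 3 → R3 → ℝ) (R : ℝ) (x : R3) :
    Pi (fun x => cut R x • ψ x) (fun j x => cut R x • D j x + pd j (cut R) x • ψ x) A x =
      cut R x • Pi ψ D A x + ∑ j, pd j (cut R) x • sig j ((-Complex.I) • ψ x) := by
  unfold Pi
  rw [Finset.smul_sum, ← Finset.sum_add_distrib]
  refine Finset.sum_congr rfl fun j _ => ?_
  have e : (-Complex.I) • (cut R x • D j x + pd j (cut R) x • ψ x) -
      (A j x : ℂ) • (cut R x • ψ x) =
      (cut R x : ℂ) • ((-Complex.I) • D j x - (A j x : ℂ) • ψ x) +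
        ((pd j (cut R) x : ℝ) : ℂ) • ((-Complex.I) • ψ x) := by
    have r : ∀ (r : ℝ) (v : Sp), r • v = (r : ℂ) • v := fun r v => (Complex.coe_smul r v).symm
    rw [r, r, r]
    module
  have r : ∀ (r : ℝ) (v : Sp), (r : ℂ) • v = r • v := fun r v => Complex.coe_smul r v
  have e2 : sig j ((-Complex.I) • (cut R x • D j x + pd j (cut R) x • ψ x) -
      (A j x : ℂ) • (cut R x • ψ x)) =
      cut R x • sig j ((-Complex.I) • D j x - (A j x : ℂ) • ψ x) +
        pd j (cut R) x • sig j ((-Complex.I) • ψ x) := by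
    rw [e, map_add, (sig j).map_smul (cut R x : ℂ), (sig j).map_smul ((pd j (cut R) x : ℝ) : ℂ),
      r (cut R x), r (pd j (cut R) x)]
  exact e2

theorem CUT : ST_CUT := by
  obtain ⟨C0, hC0, hb⟩ := cut_pd_bound
  set M : ℝ := ∑ j, ‖sig j‖ with hM
  have hM0 : 0 ≤ M := Finset.sum_nonneg fun j _ => norm_nonneg _
  refine ⟨C0 * M, mul_nonneg hC0 hM0, ?_⟩
  intro ψ D A B hF R hR
  obtain ⟨⟨hA, hn⟩, hz⟩ := hF
  have hψ := hA.psiL2
  -- the set
  have hS : ∀ r : ℝ, MeasurableSet {x : R3 | r < ‖x‖} := fun r =>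
    (isOpen_lt continuous_const continuous_norm).measurableSet
  have hi : Integrable (fun x => ‖ψ x‖ ^ 2) := hψ.integrable_norm_pow (by norm_num)
  have hcm : AEStronglyMeasurable (fun x => cut R x • ψ x) volume :=
    (cut_cont R).aestronglyMeasurable.smul hψ.aestronglyMeasurable
  have hle : ∀ x, ‖cut R x • ψ x‖ ≤ ‖ψ x‖ := by
    intro x
    rw [norm_smul, Real.norm_of_nonneg (cut_nonneg R x)]
    exact mul_le_of_le_one_left (norm_nonneg _) (cut_le_one R x)
  have hψ' : MemLp (fun x => cut R x • ψ x) 2 volume :=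
    hψ.of_le hcm (Filter.Eventually.of_forall hle)
  have hdψ : ∀ j, MemLp (fun x => pd j (cut R) x • ψ x) 2 volume := by
    intro j
    have hm : AEStronglyMeasurable (fun x => pd j (cut R) x • ψ x) volume :=
      (pd_cont R j).aestronglyMeasurable.smul hψ.aestronglyMeasurable
    refine MemLp.of_le_mul (c := C0 / R) hψ hm (Filter.Eventually.of_forall fun x => ?_)
    rw [norm_smul]
    exact mul_le_mul_of_nonneg_right (hb R hR j x) (norm_nonneg _)
  have hcD : ∀ j, MemLp (fun x => cut R x • D j x) 2 volume := by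
    intro j
    have hm : AEStronglyMeasurable (fun x => cut R x • D j x) volume :=
      (cut_cont R).aestronglyMeasurable.smul (hA.derL2 j).aestronglyMeasurable
    refine (hA.derL2 j).of_le hm (Filter.Eventually.of_forall fun x => ?_)
    rw [norm_smul, Real.norm_of_nonneg (cut_nonneg R x)]
    exact mul_le_of_le_one_left (norm_nonneg _) (cut_le_one R x)
  -- the Pauli operator
  have hPiEq : Pi (fun x => cut R x • ψ x) (fun j x => cut R x • D j x + pd j (cut R) x • ψ x) A
      =ᵐ[volume] fun x => ∑ j, pd j (cut R) x • sig j ((-Complex.I) • ψ x) := by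
    filter_upwards [hz] with x hx
    rw [pi_cut, hx, smul_zero, zero_add]
  have hPiBd : ∀ x, ‖∑ j, pd j (cut R) x • sig j ((-Complex.I) • ψ x)‖ ≤
      (C0 * M / R) * ‖ψ x‖ := by
    intro x
    calc ‖∑ j, pd j (cut R) x • sig j ((-Complex.I) • ψ x)‖
        ≤ ∑ j, ‖pd j (cut R) x • sig j ((-Complex.I) • ψ x)‖ := norm_sum_le _ _
      _ ≤ ∑ j, C0 / R * (‖sig j‖ * ‖ψ x‖) := by
          refine Finset.sum_le_sum fun j _ => ?_
          rw [norm_smul]
          refine mul_le_mul (hb R hR j x) ?_ (norm_nonneg _) (by positivity)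
          refine le_trans (ContinuousLinearMap.le_opNorm _ _) ?_
          rw [norm_smul]
          simp
      _ = (C0 * M / R) * ‖ψ x‖ := by
          rw [← Finset.mul_sum, ← Finset.sum_mul, ← hM]
          ring
  have hPiM : MemLp (fun x => ∑ j, pd j (cut R) x • sig j ((-Complex.I) • ψ x)) 2 volume := by
    have hm : AEStronglyMeasurable
        (fun x => ∑ j, pd j (cut R) x • sig j ((-Complex.I) • ψ x)) volume := by
      refine Finset.aestronglyMeasurable_fun_sum _ fun j _ => ?_
      refine (pd_cont R j).aestronglyMeasurable.smul ?_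
      exact (sig j).continuous.comp_aestronglyMeasurable
        (hψ.aestronglyMeasurable.const_smul (-Complex.I))
    exact MemLp.of_le_mul hψ hm (Filter.Eventually.of_forall hPiBd)
  refine ⟨fun x => cut R x • ψ x, fun j x => cut R x • D j x + pd j (cut R) x • ψ x,
    ?_, ?_, ?_, ?_⟩
  · -- admissible
    exact {
      psiL2 := hψ'
      derL2 := fun j => (hcD j).add (hdψ j)
      der := fun j => weakD_cut hψ (hA.derL2 j) (hA.der j) R
      potL6 := hA.potL6
      div := hA.div
      magL2 := hA.magL2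
      curl := hA.curl
      kinL2 := (memLp_congr_ae hPiEq).mpr hPiM
      couL1 := by
        refine hA.couL1.mono ?_ (Filter.Eventually.of_forall fun x => ?_)
        · have h1 : AEMeasurable (fun x => ‖cut R x • ψ x‖ ^ 2) volume :=
            (hcm.norm.aemeasurable.pow_const 2)
          exact (h1.div measurable_norm.aemeasurable).aestronglyMeasurable
        · rw [Real.norm_of_nonneg (by positivity), Real.norm_of_nonneg (by positivity)]
          exact div_le_div_of_nonneg_right (pow_le_pow_left₀ (norm_nonneg _) (hle x) 2)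
            (norm_nonneg _) }
  · -- kinetic energy
    have h1 : kin (fun x => cut R x • ψ x) (fun j x => cut R x • D j x + pd j (cut R) x • ψ x) A
        = ∫ x, ‖∑ j, pd j (cut R) x • sig j ((-Complex.I) • ψ x)‖ ^ 2 := by
      unfold kin
      apply integral_congr_ae
      filter_upwards [hPiEq] with x hx
      rw [hx]
    rw [h1, ← integral_const_mul, ← integral_indicator (hS R)]
    apply integral_mono_of_nonneg (Filter.Eventually.of_forall fun x => by positivity)
    · exact (hi.const_mul _).indicator (hS R)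
    · refine Filter.Eventually.of_forall fun x => ?_
      by_cases hx : R < ‖x‖
      · simp only [Set.indicator, Set.mem_setOf_eq, hx, if_true]
        calc ‖∑ j, pd j (cut R) x • sig j ((-Complex.I) • ψ x)‖ ^ 2
            ≤ ((C0 * M / R) * ‖ψ x‖) ^ 2 := pow_le_pow_left₀ (norm_nonneg _) (hPiBd x) 2
          _ = (C0 * M / R) ^ 2 * ‖ψ x‖ ^ 2 := by ring
      · have hx' : ‖x‖ ≤ R := not_lt.mp hx
        have e : ∑ j, pd j (cut R) x • sig j ((-Complex.I) • ψ x) = 0 := by
          apply Finset.sum_eq_zero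
          intro j _
          rw [cut_pd_zero hR j hx', zero_smul]
        simp only [Set.indicator, Set.mem_setOf_eq, hx, if_false, e]
        simp
  · -- norm
    unfold nrm
    have h2 : (∫ x, ‖cut R x • ψ x‖ ^ 2) + ∫ x in {x | 2 * R < ‖x‖}, ‖ψ x‖ ^ 2 ≤ 1 := by
      rw [← hn, ← integral_indicator (hS (2 * R))]
      unfold nrm
      have i1 : Integrable (fun x => ‖cut R x • ψ x‖ ^ 2) := hψ'.integrable_norm_pow (by norm_num)
      have i2 := hi.indicator (hS (2 * R))
      rw [← integral_add i1 i2]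
      apply integral_mono (i1.add i2) hi
      intro x
      by_cases hx : 2 * R < ‖x‖
      · simp only [Set.indicator, Set.mem_setOf_eq, hx, if_true, Pi.add_apply,
          cut_zero hR hx.le, zero_smul]
        simp
      · simp only [Set.indicator, Set.mem_setOf_eq, hx, if_false, Pi.add_apply, add_zero]
        exact pow_le_pow_left₀ (norm_nonneg _) (hle x) 2
    linarith
  · -- Coulomb energy
    unfold cou
    have hc' : Integrable (fun x => ‖cut R x • ψ x‖ ^ 2 / ‖x‖) := by
      refine hA.couL1.mono ?_ (Filter.Eventually.of_forall fun x => ?_)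
      · have h1 : AEMeasurable (fun x => ‖cut R x • ψ x‖ ^ 2) volume :=
          (hcm.norm.aemeasurable.pow_const 2)
        exact (h1.div measurable_norm.aemeasurable).aestronglyMeasurable
      · rw [Real.norm_of_nonneg (by positivity), Real.norm_of_nonneg (by positivity)]
        exact div_le_div_of_nonneg_right (pow_le_pow_left₀ (norm_nonneg _) (hle x) 2)
          (norm_nonneg _)
    have hi2 : Integrable ({x | R < ‖x‖}.indicator (fun x => ‖ψ x‖ ^ 2 / R)) :=
      (hi.div_const R).indicator (hS R)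
    have h3 : ∫ x, ‖ψ x‖ ^ 2 / ‖x‖ ≤ (∫ x, ‖cut R x • ψ x‖ ^ 2 / ‖x‖) +
        (∫ x in {x | R < ‖x‖}, ‖ψ x‖ ^ 2) / R := by
      rw [← integral_div, ← integral_indicator (hS R), ← integral_add hc' hi2]
      apply integral_mono hA.couL1 (hc'.add hi2)
      intro x
      by_cases hx : R < ‖x‖
      · simp only [Set.indicator, Set.mem_setOf_eq, hx, if_true, Pi.add_apply]
        have h4 : ‖ψ x‖ ^ 2 / ‖x‖ ≤ ‖ψ x‖ ^ 2 / R :=
          div_le_div_of_nonneg_left (by positivity) hR hx.le
        have h5 : 0 ≤ ‖cut R x • ψ x‖ ^ 2 / ‖x‖ := by positivity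
        linarith
      · simp only [Set.indicator, Set.mem_setOf_eq, hx, if_false, Pi.add_apply, add_zero,
          cut_one hR (not_lt.mp hx), one_smul]
        exact le_refl _
    linarith

end

end Helper2.PC
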